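import Pool.Agent.Q253.TwoRank.Lower

/-!
# Diagonal Ramsey colourings given by symmetric matrices of small rank over the field `F_2`

A colouring of the pairs of a finite set `V` is a graph `G` (`NoMono G k`: there is no monochromatic
`K_k`). It is given by symmetric matrices `M_1, …, M_s` over `F_2` (with arbitrary diagonals) if the
colour of a pair `u, v` is a function of the entries `M_i (u, v)`. With `s = 1` the rank of `M_1`
is the (minimum) rank of the colouring over `F_2`.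

1. A colouring without monochromatic `K_k` given by matrices of ranks `r_1, …, r_s` has at most
   `(k - 1) ∏ 2 (2 ^ ⌊(r_i + 1) / 2⌋ + 1)` vertices; so the binary logarithm of the number of its
   vertices is at most `∑ (r_i + 5) / 2 + log_2 k`.
2. This is sharp to first order: for `0 < ρ ≤ 2` there are colourings without monochromatic
   `K_k` given by one matrix of rank at most `ρ k`, with
   `log_2 n ≥ (ρ / 2) (1 - ρ / 4) k - 7 / 2`. So the growth rate of the diagonal Ramsey numbers of the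
   colourings of rank at most `ρ k` is between `(ρ / 2) (1 - ρ / 4) log 2` and `(ρ / 2) log 2`.
3. Every colouring that proves Erdős's bound `2 ^ (k / 2)` has rank at least `k - 2 log_2 k - 5`, and
   for `2 ^ (k / 2 - 7 / 2)` vertices rank `2 k` is enough.

Proofs. 1: adding `d dᵀ`, `d` the diagonal, the matrix becomes alternating on the larger class of
equal diagonal entries. A family of vectors of a symplectic space of dimension `2 m` has a part
of proportion at least `1 / (2 ^ m + 1)` in a totally isotropic subspace, which is constructed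
step by step by averaging. 2: random vectors of the symplectic space of dimension about `ρ k`,
with a count of the pairwise orthogonal `k`-tuples and of the `k`-tuples with all products one.
-/

open Finset

set_option autoImplicit false

namespace Pool.Agent.Results.MP_28724c_co.BinaryRank

/-- no monochromatic `K_k` -/
def NoMono {V : Type} (G : SimpleGraph V) (k : ℕ) : Prop := G.CliqueFree k ∧ Gᶜ.CliqueFree k

/-- the colour of a pair is a function of the corresponding entries of the symmetric matrices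
`M i` over the field with two elements -/
def GivenBy {V : Type} (G : SimpleGraph V) {s : ℕ} (M : Fin s → Matrix V V (ZMod 2)) : Prop :=
  (∀ i, (M i).IsSymm) ∧
    ∃ F : (Fin s → ZMod 2) → Prop, ∀ u v, u ≠ v → (G.Adj u v ↔ F fun i => M i u v)

/-- the edges are the pairs whose entry in some symmetric matrix of rank at most `r` over the field
with two elements is one; the diagonal of the matrix is arbitrary -/
def RankLE {V : Type} [Fintype V] (G : SimpleGraph V) (r : ℕ) : Prop :=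
  ∃ M : Matrix V V (ZMod 2), M.IsSymm ∧ (∀ u v, u ≠ v → (G.Adj u v ↔ M u v = 1)) ∧ M.rank ≤ r

theorem upper {V : Type} [Fintype V] (G : SimpleGraph V) {s k : ℕ}
    (M : Fin s → Matrix V V (ZMod 2)) (hM : GivenBy G M) (hG : NoMono G k) :
    Fintype.card V ≤ (∏ i, 2 * (2 ^ (((M i).rank + 1) / 2) + 1)) * (k - 1) := by
  classical
  obtain ⟨hs, F, hF⟩ := hM
  obtain ⟨T, hT, hc⟩ := Pool.Agent.Q253.TwoRank.const_all M
    fun i u v => (Matrix.IsSymm.apply (hs i) u v).symm
  refine hc.trans (Nat.mul_le_mul_left _ ?_)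
  by_contra hk
  have hk' : k ≤ T.card := by omega
  obtain ⟨S, hST, hS⟩ := exists_subset_card_eq hk'
  choose c hc' using hT
  by_cases h : F c
  · refine hG.1 S ⟨?_, hS⟩
    intro u hu v hv huv
    rw [hF u v huv]
    have : (fun i => M i u v) = c := funext fun i => hc' i u (hST hu) v (hST hv) huv
    rw [this]
    exact h
  · refine hG.2 S ⟨?_, hS⟩
    intro u hu v hv huv
    rw [SimpleGraph.compl_adj]
    refine ⟨huv, ?_⟩
    rw [hF u v huv]
    have : (fun i => M i u v) = c := funext fun i => hc' i u (hST hu) v (hST hv) huv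
    rw [this]
    exact h

theorem upper_log {V : Type} [Fintype V] (G : SimpleGraph V) {s k : ℕ}
    (M : Fin s → Matrix V V (ZMod 2)) (hM : GivenBy G M) (hG : NoMono G k)
    (hV : 1 ≤ Fintype.card V) :
    Real.logb 2 (Fintype.card V) ≤ ∑ i, (((M i).rank : ℝ) + 5) / 2 + Real.logb 2 k := by
  have h := upper G M hM hG
  have hk : 1 ≤ k := by
    rcases Nat.eq_zero_or_pos k with rfl | h0
    · rw [Nat.zero_sub, mul_zero] at h
      omega
    · exact h0
  have hb : ∀ r : ℕ, ((2 * (2 ^ ((r + 1) / 2) + 1) : ℕ) : ℝ) ≤ (2 : ℝ) ^ (((r : ℝ) + 5) / 2) := by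
    intro r
    have h1 : 2 * (2 ^ ((r + 1) / 2) + 1) ≤ 2 ^ ((r + 1) / 2 + 2) := by
      have := Nat.one_le_two_pow (n := (r + 1) / 2)
      rw [pow_add]
      omega
    calc ((2 * (2 ^ ((r + 1) / 2) + 1) : ℕ) : ℝ) ≤ ((2 ^ ((r + 1) / 2 + 2) : ℕ) : ℝ) := by
          exact_mod_cast h1
      _ = (2 : ℝ) ^ (((r + 1) / 2 + 2 : ℕ) : ℝ) := by
          rw [Real.rpow_natCast]
          push_cast
          rfl
      _ ≤ (2 : ℝ) ^ (((r : ℝ) + 5) / 2) := by
          apply Real.rpow_le_rpow_of_exponent_le (by norm_num)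
          have h2 : (((r + 1) / 2 : ℕ) : ℝ) ≤ ((r + 1 : ℕ) : ℝ) / 2 := Nat.cast_div_le
          push_cast at h2 ⊢
          linarith
  have hprod : ((∏ i, 2 * (2 ^ (((M i).rank + 1) / 2) + 1) : ℕ) : ℝ) ≤
      (2 : ℝ) ^ (∑ i, (((M i).rank : ℝ) + 5) / 2) := by
    rw [Real.rpow_sum_of_pos (by norm_num), Nat.cast_prod]
    exact prod_le_prod (fun i _ => Nat.cast_nonneg _) fun i _ => hb _
  have h3 : (Fintype.card V : ℝ) ≤ (2 : ℝ) ^ (∑ i, (((M i).rank : ℝ) + 5) / 2) * k := by
    calc (Fintype.card V : ℝ)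
        ≤ (((∏ i, 2 * (2 ^ (((M i).rank + 1) / 2) + 1)) * (k - 1) : ℕ) : ℝ) := by
          exact_mod_cast h
      _ = ((∏ i, 2 * (2 ^ (((M i).rank + 1) / 2) + 1) : ℕ) : ℝ) * ((k - 1 : ℕ) : ℝ) := by
          push_cast
          rfl
      _ ≤ (2 : ℝ) ^ (∑ i, (((M i).rank : ℝ) + 5) / 2) * k := by
          apply mul_le_mul hprod _ (Nat.cast_nonneg _) (by positivity)
          exact_mod_cast Nat.sub_le k 1
  have hkpos : (0 : ℝ) < k := by exact_mod_cast hk
  have hVpos : (0 : ℝ) < Fintype.card V := by exact_mod_cast hV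
  calc Real.logb 2 (Fintype.card V)
      ≤ Real.logb 2 ((2 : ℝ) ^ (∑ i, (((M i).rank : ℝ) + 5) / 2) * k) :=
        Real.logb_le_logb_of_le (by norm_num) hVpos h3
    _ = ∑ i, (((M i).rank : ℝ) + 5) / 2 + Real.logb 2 k := by
        rw [Real.logb_mul (by positivity) hkpos.ne', Real.logb_rpow (by norm_num) (by norm_num)]

theorem lower (m k t : ℕ) (hk : 3 ≤ k) (h1 : 2 * t * k + m * (m + 3) ≤ 2 * m * k)
    (h2 : 2 * (t * k) ≤ (k - 1) * (k - 2)) :
    ∃ G : SimpleGraph (Fin (2 ^ t)), NoMono G k ∧ RankLE G (2 * m) := by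
  obtain ⟨x, hx⟩ := Pool.Agent.Q253.TwoRank.exists_colouring m k t hk h1 h2
  have hsymm : ∀ u v, Pool.Agent.Q253.TwoRank.om m (x u) (x v) =
      Pool.Agent.Q253.TwoRank.om m (x v) (x u) := fun u v =>
    Pool.Agent.Q253.TwoRank.symm_of_alt (Pool.Agent.Q253.TwoRank.om_alt m) _ _
  let G : SimpleGraph (Fin (2 ^ t)) :=
    { Adj := fun u v => u ≠ v ∧ Pool.Agent.Q253.TwoRank.om m (x u) (x v) = 1
      symm := ⟨fun u v h => ⟨h.1.symm, by rw [hsymm]; exact h.2⟩⟩
      loopless := ⟨fun u h => h.1 rfl⟩ }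
  refine ⟨G, ⟨?_, ?_⟩, ?_⟩
  · rintro S ⟨hS, hc⟩
    obtain ⟨u, hu, v, hv, huv, h⟩ := (hx S hc).2
    exact h (hS hu hv huv).2
  · rintro S ⟨hS, hc⟩
    obtain ⟨u, hu, v, hv, huv, h⟩ := (hx S hc).1
    have h3 := hS hu hv huv
    rw [SimpleGraph.compl_adj] at h3
    rcases Pool.Agent.Q253.TwoRank.zo (Pool.Agent.Q253.TwoRank.om m (x u) (x v)) with h4 | h4
    · exact h h4
    · exact h3.2 ⟨huv, h4⟩
  · refine ⟨Matrix.of fun u v => Pool.Agent.Q253.TwoRank.om m (x u) (x v), ?_, ?_, ?_⟩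
    · ext u v
      exact hsymm v u
    · intro u v huv
      exact ⟨fun h => h.2, fun h => ⟨huv, h⟩⟩
    · let A : Matrix (Fin (2 ^ t)) (Fin m ⊕ Fin m) (ZMod 2) :=
        Matrix.of fun u i => Sum.elim (x u).1 (x u).2 i
      let C : Matrix (Fin m ⊕ Fin m) (Fin (2 ^ t)) (ZMod 2) :=
        Matrix.of fun i v => Sum.elim (x v).2 (x v).1 i
      have hAC : (Matrix.of fun u v => Pool.Agent.Q253.TwoRank.om m (x u) (x v)) = A * C := by
        ext u v
        rw [Matrix.mul_apply, Fintype.sum_sum_type]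
        rfl
      rw [hAC]
      calc (A * C).rank ≤ A.rank := Matrix.rank_mul_le_left A C
        _ ≤ Fintype.card (Fin m ⊕ Fin m) := Matrix.rank_le_card_width A
        _ = 2 * m := by simp; ring

theorem lower_real (ρ : ℝ) (h0 : 0 < ρ) (h2 : ρ ≤ 2) (k : ℕ) (hk : 3 ≤ k) :
    ∃ (n r : ℕ) (G : SimpleGraph (Fin n)), NoMono G k ∧ RankLE G r ∧ (r : ℝ) ≤ ρ * k ∧ 1 ≤ n ∧
      ρ / 2 * (1 - ρ / 4) * k - 7 / 2 ≤ Real.logb 2 n := by
  have hk' : (3 : ℝ) ≤ k := by exact_mod_cast hk
  obtain ⟨m, hm⟩ : ∃ m, m = ⌊ρ * k / 2⌋₊ := ⟨_, rfl⟩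
  obtain ⟨t, ht⟩ : ∃ t, t = ⌊ρ / 2 * (1 - ρ / 4) * k - 5 / 2⌋₊ := ⟨_, rfl⟩
  have hm1 : (m : ℝ) ≤ ρ * k / 2 := hm ▸ Nat.floor_le (by positivity)
  have hm2 : ρ * k / 2 < m + 1 := hm ▸ Nat.lt_floor_add_one _
  have hmk : (m : ℝ) ≤ k := by nlinarith
  have hmk' : m ≤ k := by exact_mod_cast hmk
  have hcond : 2 * t * k + m * (m + 3) ≤ 2 * m * k ∧ 2 * (t * k) ≤ (k - 1) * (k - 2) := by
    rcases le_or_gt (ρ / 2 * (1 - ρ / 4) * k - 5 / 2) 0 with h | h
    · have : t = 0 := by rw [ht]; exact Nat.floor_eq_zero.2 (by linarith)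
      subst this
      refine ⟨?_, by simp⟩
      have : m * (m + 3) ≤ m * (2 * k) := Nat.mul_le_mul_left _ (by omega)
      linarith
    · have ht1 : (t : ℝ) ≤ ρ / 2 * (1 - ρ / 4) * k - 5 / 2 := ht ▸ Nat.floor_le h.le
      have hk0 : (0 : ℝ) < k := by linarith
      constructor
      · have hr : (2 * t * k + m * (m + 3) : ℝ) ≤ 2 * m * k := by
          have e1 : (2 * t * k : ℝ) ≤ 2 * (ρ / 2 * (1 - ρ / 4) * k - 5 / 2) * k := by
            have := mul_le_mul_of_nonneg_right ht1 hk0.le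
            linarith
          have e2 : (m * (m + 3) : ℝ) ≤ ρ * k / 2 * (ρ * k / 2) + 3 * k := by
            have hm0 : (0 : ℝ) ≤ m := Nat.cast_nonneg m
            nlinarith
          have e3 : 2 * (ρ * k / 2 - 1) * k ≤ 2 * m * k := by
            have : ρ * k / 2 - 1 ≤ m := by linarith
            have := mul_le_mul_of_nonneg_right this hk0.le
            linarith
          nlinarith
        exact_mod_cast hr
      · obtain ⟨q, rfl⟩ : ∃ q, k = q + 2 := ⟨k - 2, by omega⟩
        have e : (q + 2 - 1) * (q + 2 - 2) = (q + 1) * q := by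
          congr 1
        rw [e]
        have hr : (2 * (t * (q + 2)) : ℝ) ≤ (q + 1) * q := by
          push_cast at ht1 hk0
          have e0 : ρ / 2 * (1 - ρ / 4) ≤ 1 / 2 := by nlinarith [sq_nonneg (ρ - 2)]
          have e1 : (t : ℝ) ≤ 1 / 2 * (q + 2) - 5 / 2 := by
            have := mul_le_mul_of_nonneg_right e0 hk0.le
            linarith
          have e2 := mul_le_mul_of_nonneg_right e1 hk0.le
          have hq : (0 : ℝ) ≤ q := Nat.cast_nonneg q
          nlinarith
        exact_mod_cast hr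
  obtain ⟨G, hG, hr⟩ := lower m k t hk hcond.1 hcond.2
  refine ⟨2 ^ t, 2 * m, G, hG, hr, ?_, Nat.one_le_two_pow, ?_⟩
  · push_cast
    linarith
  · push_cast
    rw [Real.logb_pow, Real.logb_self_eq_one (by norm_num), mul_one]
    have := Nat.lt_floor_add_one (ρ / 2 * (1 - ρ / 4) * k - 5 / 2)
    rw [← ht] at this
    linarith

/-- (1), (2): upper bounds for the number of vertices of a colouring without monochromatic `K_k`
given by symmetric matrices over `F_2`, in terms of the ranks. (3) One matrix. (4) Colourings with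
prescribed parameters. (5) For `0 < ρ ≤ 2` the upper bound (3) for rank at most `ρ k` is sharp up to
a factor `1 - ρ / 4` of the exponent. (6) Rank of the colourings with `2 ^ (k / 2)` vertices. -/
theorem result :
    (∀ (V : Type) [Fintype V] (G : SimpleGraph V) (s k : ℕ) (M : Fin s → Matrix V V (ZMod 2)),
      GivenBy G M → NoMono G k →
        Fintype.card V ≤ (∏ i, 2 * (2 ^ (((M i).rank + 1) / 2) + 1)) * (k - 1)) ∧
    (∀ (V : Type) [Fintype V] (G : SimpleGraph V) (s k : ℕ) (M : Fin s → Matrix V V (ZMod 2)),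
      GivenBy G M → NoMono G k → 1 ≤ Fintype.card V →
        Real.logb 2 (Fintype.card V) ≤ ∑ i, (((M i).rank : ℝ) + 5) / 2 + Real.logb 2 k) ∧
    (∀ (V : Type) [Fintype V] (G : SimpleGraph V) (r k : ℕ), RankLE G r → NoMono G k →
      1 ≤ Fintype.card V →
        Real.logb 2 (Fintype.card V) ≤ (r : ℝ) / 2 + 5 / 2 + Real.logb 2 k) ∧
    (∀ m k t : ℕ, 3 ≤ k → 2 * t * k + m * (m + 3) ≤ 2 * m * k →
      2 * (t * k) ≤ (k - 1) * (k - 2) →
        ∃ G : SimpleGraph (Fin (2 ^ t)), NoMono G k ∧ RankLE G (2 * m)) ∧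
    (∀ ρ : ℝ, 0 < ρ → ρ ≤ 2 → ∀ k : ℕ, 3 ≤ k →
      ∃ (n r : ℕ) (G : SimpleGraph (Fin n)), NoMono G k ∧ RankLE G r ∧ (r : ℝ) ≤ ρ * k ∧ 1 ≤ n ∧
        ρ / 2 * (1 - ρ / 4) * k - 7 / 2 ≤ Real.logb 2 n) ∧
    (∀ (V : Type) [Fintype V] (G : SimpleGraph V) (r k : ℕ), RankLE G r → NoMono G k →
      (2 : ℝ) ^ ((k : ℝ) / 2) ≤ Fintype.card V → (k : ℝ) - 5 - 2 * Real.logb 2 k ≤ r) := by
  have h3 : ∀ (V : Type) [Fintype V] (G : SimpleGraph V) (r k : ℕ), RankLE G r → NoMono G k →
      1 ≤ Fintype.card V →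
        Real.logb 2 (Fintype.card V) ≤ (r : ℝ) / 2 + 5 / 2 + Real.logb 2 k := by
    intro V _ G r k hr hG hV
    obtain ⟨M, hs, hM, hr⟩ := hr
    have h := upper_log G (fun _ : Fin 1 => M) ⟨fun _ => hs, fun f => f 0 = 1, hM⟩ hG hV
    rw [Fin.sum_univ_one] at h
    have hr' : (M.rank : ℝ) ≤ r := by exact_mod_cast hr
    linarith
  refine ⟨fun V _ G s k M hM hG => upper G M hM hG,
    fun V _ G s k M hM hG hV => upper_log G M hM hG hV, h3, lower, lower_real, ?_⟩
  intro V _ G r k hr hG hV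
  have hpos : (0 : ℝ) < (2 : ℝ) ^ ((k : ℝ) / 2) := by positivity
  have hV1 : 1 ≤ Fintype.card V := by
    have : (0 : ℝ) < Fintype.card V := lt_of_lt_of_le hpos hV
    exact_mod_cast this
  have h := h3 V G r k hr hG hV1
  have h' : (k : ℝ) / 2 ≤ Real.logb 2 (Fintype.card V) := by
    rw [Real.le_logb_iff_rpow_le (by norm_num) (by exact_mod_cast hV1)]
    exact hV
  linarith

end Pool.Agent.Results.MP_28724c_co.BinaryRank
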