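import Pool.Agent.Q274.IV.Final

/-!
# Growth rate of the diagonal Ramsey numbers: colourings with few alternations

`G` is a graph on the vertices `0, …, n - 1`; the two colour classes are `G` and its complement.
`changesAfter G v` is the number of `z > v` such that exactly one of `z`, `z + 1` is adjacent to
`v`, so the neighbourhood of `v` after `v` is the union of about half as many intervals;
`changesBefore G v` counts the changes before `v`. `OneSided G t`: every vertex has at most `t`
changes on one of its two sides. The vertices can be numbered in any way, so the theorem is about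
graphs for which there is such an order.

(1) If there is no homogeneous set with `k` vertices, then `n ≤ (t + 1) ^ (j - 1) * exp (5000 j k ^ (1/j))`
for all `j ≥ 1`. With `j = 2`: in every order of the vertices of a graph without homogeneous set of
size `k` there is a vertex with at least `n * exp (- 10000 sqrt k) - 1` changes on both of its sides.

(2) For `τ > 0` the largest `n` with `t ≤ n ^ τ` has `log n` of order `k ^ (1/j)`, `j = ⌈1/τ⌉`. In
particular colourings with `t ≤ n ^ (1 - δ)` have `log n = O (sqrt k)`, so their growth rate is `0`.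

(3) For `16 ≤ t`, `2 log t + 2 ≤ k` one has `log n = O (log t * log k / log log t)`, and this is the
order of the maximum of `log n` if `(log k) ^ 2 ≤ t`.

Proof of the upper bounds: for a set `W` let `f (W)` be the product of the sizes of the largest
clique and of the largest independent set in `W`. If `f (W) ≥ P` for all `W` with at least `m`
vertices, then `f (W) ≥ c p ^ 2 P` for all `W` with at least `(t + 1) exp (C p) m` vertices. Divide
`W` into blocks. A vertex distinguishes the vertices of at most `t` later blocks, so there are
`exp (C' p)` blocks with large subsets `Y i` whose vertices do not distinguish the vertices of later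
blocks; pass to subsets on which `f` is stable under passing to dense subsets, the loss of density
that is allowed depending on the value of `f`, and then use the argument of Erdős and Szekeres
for the blocks, with weights, to find long chains of blocks for both colours at the same time.
The lower bounds come from lexicographic powers of random graphs.
-/

set_option autoImplicit false

namespace Pool.Agent.Results.MP_28724c_co.FewAlternations

open Pool.Agent.Q274.IV Real

theorem result :
    (∀ j : ℕ, 1 ≤ j → ∀ (n t k : ℕ) (G : SimpleGraph (Fin n)), OneSided G t →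
      G.CliqueFree k → Gᶜ.CliqueFree k →
      (n : ℝ) ≤ ((t : ℝ) + 1) ^ (j - 1) * exp (5000 * j * (k : ℝ) ^ ((1 : ℝ) / j))) ∧
    (∀ τ : ℝ, 0 < τ → ∃ c C : ℝ, 0 < c ∧ 0 < C ∧ ∀ k : ℕ, 3 ≤ k →
      (∀ (n t : ℕ) (G : SimpleGraph (Fin n)), OneSided G t → (t : ℝ) ≤ (n : ℝ) ^ τ →
        G.CliqueFree k → Gᶜ.CliqueFree k →
        log n ≤ C * (k : ℝ) ^ ((1 : ℝ) / (⌈1 / τ⌉₊ : ℝ))) ∧
      (∃ (n t : ℕ) (G : SimpleGraph (Fin n)), (∀ v, changesAfter G v ≤ t) ∧
        (t : ℝ) ≤ (n : ℝ) ^ τ ∧ G.CliqueFree k ∧ Gᶜ.CliqueFree k ∧
        c * (k : ℝ) ^ ((1 : ℝ) / (⌈1 / τ⌉₊ : ℝ)) ≤ log n)) ∧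
    (∀ t k : ℕ, 16 ≤ t → 2 * log t + 2 ≤ k →
      (∀ (n : ℕ) (G : SimpleGraph (Fin n)), OneSided G t → G.CliqueFree k → Gᶜ.CliqueFree k →
        log n ≤ 10000 * (log t * log k / log (log t))) ∧
      ((log k) ^ 2 ≤ t → ∃ (n : ℕ) (G : SimpleGraph (Fin n)), (∀ v, changesAfter G v ≤ t) ∧
        G.CliqueFree k ∧ Gᶜ.CliqueFree k ∧ log t * log k / log (log t) ≤ 24 * log n)) :=
  ⟨fun j hj _ t k G hG h1 h2 => upper j hj G t k hG h1 h2, threshold, small⟩

end Pool.Agent.Results.MP_28724c_co.FewAlternations
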