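import Pool.Agent.Q253.RankWidth.Lower

/-!
Diagonal Ramsey numbers and the rank-width of the colourings.
-/

open Finset

set_option autoImplicit false

namespace Pool.Agent.Results.MP_28724c_co.RankWidth

open Pool.Agent.Q253.RankWidth

/-- The 2-colouring of the edges of the complete graph on `V`, with colour classes `G` and its
complement, has no monochromatic `K_k`. -/
def NoMono {V : Type} (G : SimpleGraph V) (k : ℕ) : Prop := G.CliqueFree k ∧ Gᶜ.CliqueFree k

open Classical in
theorem NoMono.om_le {V : Type} [Fintype V] {G : SimpleGraph V} {k : ℕ} (h : NoMono G k)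
    (hk : 1 ≤ k) : om G univ ≤ k - 1 ∧ om Gᶜ univ ≤ k - 1 := by
  have key : ∀ H : SimpleGraph V, H.CliqueFree k → om H univ ≤ k - 1 := by
    intro H hH
    by_contra hcon
    push Not at hcon
    obtain ⟨K, -, hK, he⟩ := om_mem H univ
    obtain ⟨S, hS, hc⟩ := exists_subset_card_eq (show k ≤ K.card by omega)
    exact hH S ⟨hK.subset (coe_subset.2 hS), hc⟩
  exact ⟨key G h.1, key Gᶜ h.2⟩

/-- numerical lemma for the choice of `D` -/
theorem choice {r : ℕ} (hr : 2 ≤ r) : ∃ D : ℕ, 1 ≤ D ∧ 3 * 2 ^ (r + D) ≤ D ^ D ∧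
    (D : ℝ) ≤ 5 * (r / Real.logb 2 r) := by
  set L := Real.logb 2 r with hL
  have hr' : (2 : ℝ) ≤ r := by exact_mod_cast hr
  have hL1 : 1 ≤ L := by
    rw [hL, Real.le_logb_iff_rpow_le (by norm_num) (by linarith)]
    simpa using hr'
  have h2L : (r : ℝ) = 2 ^ L := by
    rw [hL, Real.rpow_logb (by norm_num) (by norm_num) (by linarith)]
  have hLr : L ≤ r := by
    have h1 : (r : ℝ) < 2 ^ r := by exact_mod_cast Nat.lt_two_pow_self
    have h2 : L ≤ Real.logb 2 ((2 : ℝ) ^ r) := by
      rw [hL]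
      exact Real.logb_le_logb_of_le (by norm_num) (by linarith) h1.le
    rwa [Real.logb_pow, Real.logb_self_eq_one (by norm_num), mul_one] at h2
  have hq : 1 ≤ (r : ℝ) / L := by
    rw [le_div_iff₀ (by linarith)]
    linarith
  refine ⟨⌈4 * ((r : ℝ) / L)⌉₊, ?_, ?_, ?_⟩
  · rw [Nat.one_le_ceil_iff]
    linarith
  · set D := ⌈4 * ((r : ℝ) / L)⌉₊ with hD
    have hD1 : 4 * ((r : ℝ) / L) ≤ D := Nat.le_ceil _
    have hDpos : (0 : ℝ) < D := by linarith
    have hlogL : Real.logb 2 L ≤ L / 2 + 1 := by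
      have e1 : Real.log (L / 4) ≤ L / 4 - 1 := Real.log_le_sub_one_of_pos (by linarith)
      rw [Real.log_div (by linarith) (by norm_num)] at e1
      have e2 : Real.log 4 = 2 * Real.log 2 := by
        rw [show (4 : ℝ) = 2 ^ 2 by norm_num, Real.log_pow]
        norm_num
      have e3 := Real.log_two_gt_d9
      have e4 := Real.log_two_lt_d9
      rw [Real.logb, div_le_iff₀ (by linarith)]
      nlinarith
    have hlogD : 2 + L - Real.logb 2 L ≤ Real.logb 2 D := by
      calc 2 + L - Real.logb 2 L = Real.logb 2 (4 * ((r : ℝ) / L)) := by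
            rw [Real.logb_mul (by norm_num) (by positivity),
              Real.logb_div (by linarith) (by linarith), ← hL,
              show (4 : ℝ) = 2 ^ (2 : ℕ) by norm_num, Real.logb_pow,
              Real.logb_self_eq_one (by norm_num)]
            push_cast
            ring
        _ ≤ Real.logb 2 D := Real.logb_le_logb_of_le (by norm_num) (by linarith) hD1
    have h3 : L / 2 ≤ Real.logb 2 D - 1 := by linarith
    have h4 : (r : ℝ) + D + 2 ≤ D * Real.logb 2 D := by
      have e1 : 2 * (r : ℝ) ≤ D * (Real.logb 2 D - 1) := by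
        calc 2 * (r : ℝ) = 4 * ((r : ℝ) / L) * (L / 2) := by
              field_simp
              ring
          _ ≤ D * (Real.logb 2 D - 1) := by
              apply mul_le_mul hD1 h3 (by linarith) (by linarith)
      linarith
    have h5 : ((2 : ℝ)) ^ ((r : ℝ) + D + 2) ≤ (D : ℝ) ^ D := by
      calc ((2 : ℝ)) ^ ((r : ℝ) + D + 2) ≤ 2 ^ (D * Real.logb 2 D) :=
            Real.rpow_le_rpow_of_exponent_le (by norm_num) h4
        _ = (D : ℝ) ^ D := by
            rw [mul_comm, Real.rpow_mul (by norm_num),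
              Real.rpow_logb (by norm_num) (by norm_num) hDpos, Real.rpow_natCast]
    have h6 : ((2 : ℝ)) ^ ((r : ℝ) + D + 2) = ((2 ^ (r + D + 2) : ℕ) : ℝ) := by
      push_cast
      rw [← Real.rpow_natCast]
      push_cast
      rfl
    rw [h6] at h5
    have h7 : 2 ^ (r + D + 2) ≤ D ^ D := by exact_mod_cast h5
    calc 3 * 2 ^ (r + D) ≤ 2 ^ (r + D + 2) := by
          rw [pow_add 2 (r + D) 2]
          omega
      _ ≤ _ := h7
  · have := Nat.ceil_lt_add_one (show (0 : ℝ) ≤ 4 * ((r : ℝ) / L) by linarith)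
    linarith

theorem upper_log {V : Type} [Fintype V] (G : SimpleGraph V) {r k : ℕ} (hr : 2 ≤ r)
    (hG : RankWidthLE G r) (hk : 2 ≤ k) (h : NoMono G k) :
    Real.logb 2 (Fintype.card V) ≤ 10 * (r / Real.logb 2 r) * Real.logb 2 k := by
  classical
  obtain ⟨D, hD1, hD2, hD3⟩ := choice hr
  obtain ⟨h1, h2⟩ := h.om_le (by omega)
  have h3 := upper G hG hD1 hD2 (univ : Finset V).card univ rfl
  have h4 : Fintype.card V ≤ k ^ (2 * D) := by
    calc Fintype.card V ≤ (om G univ * om Gᶜ univ) ^ D := by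
          rw [← card_univ]
          convert h3
      _ ≤ (k * k) ^ D := by
          apply Nat.pow_le_pow_left
          apply Nat.mul_le_mul <;> omega
      _ = k ^ (2 * D) := by
          rw [← pow_two, ← pow_mul]
  have hk0 : (2 : ℝ) ≤ k := by exact_mod_cast hk
  have hlk : 0 ≤ Real.logb 2 k := Real.logb_nonneg (by norm_num) (by linarith)
  have hq : 0 ≤ (r : ℝ) / Real.logb 2 r := by
    apply div_nonneg (by positivity)
    apply Real.logb_nonneg (by norm_num)
    have : (2 : ℝ) ≤ r := by exact_mod_cast hr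
    linarith
  rcases Nat.eq_zero_or_pos (Fintype.card V) with h0 | h0
  · rw [h0]
    simp only [CharP.cast_eq_zero, Real.logb_zero]
    positivity
  · calc Real.logb 2 (Fintype.card V) ≤ Real.logb 2 ((k : ℝ) ^ (2 * D)) := by
          apply Real.logb_le_logb_of_le (by norm_num)
          · exact_mod_cast h0
          · exact_mod_cast h4
      _ = (2 * D) * Real.logb 2 k := by
          rw [Real.logb_pow]
          push_cast
          ring
      _ ≤ _ := by
          apply mul_le_mul_of_nonneg_right _ hlk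
          linarith

theorem lower_log (r k : ℕ) (hr : 14 ≤ r) (hk : r ≤ k) :
    ∃ (V : Type) (_ : Fintype V) (G : SimpleGraph V), RankWidthLE G r ∧ NoMono G k ∧
      1 / 28 * (r / Real.logb 2 r) * Real.logb 2 k ≤ Real.logb 2 (Fintype.card V) := by
  classical
  -- `q` and `t`
  obtain ⟨q, hq⟩ : ∃ q, q = (r - 1) / 2 := ⟨_, rfl⟩
  obtain ⟨t, ht⟩ : ∃ t, t = (q - 3) / 2 := ⟨_, rfl⟩
  obtain ⟨j, hj⟩ : ∃ j, j = Nat.log (q - 1) (k - 1) := ⟨_, rfl⟩
  have hq6 : 6 ≤ q := by omega
  have hj1 : 1 ≤ j := by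
    rw [hj]
    exact Nat.log_pos (by omega) (by omega)
  obtain ⟨V, iV, G, h1, h2, h3, h4⟩ := power q t (by omega) (by omega) j hj1
  have hpow : (q - 1) ^ j ≤ k - 1 := by
    rw [hj]
    exact Nat.pow_log_le_self _ (by omega)
  have hpow2 : k ≤ (q - 1) ^ (j + 1) := by
    have : k - 1 < (q - 1) ^ (j + 1) := by
      rw [hj]
      exact Nat.lt_pow_succ_log_self (show 1 < q - 1 by omega) (k - 1)
    omega
  refine ⟨V, iV, G, ?_, ⟨?_, ?_⟩, ?_⟩
  · refine Dec.mono (fun S hS => ?_) h4
    exact (Fac.cutRank_le hS).trans (by omega)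
  · rintro S ⟨hS, hc⟩
    have := h2 S hS
    omega
  · rintro S ⟨hS, hc⟩
    have := h3 S hS
    omega
  · rw [h1]
    have e1 : Real.logb 2 (((2 ^ (t * j) : ℕ)) : ℝ) = t * j := by
      push_cast
      rw [Real.logb_pow, Real.logb_self_eq_one (by norm_num)]
      push_cast
      ring
    rw [e1]
    have hr' : (14 : ℝ) ≤ r := by exact_mod_cast hr
    have hk' : (r : ℝ) ≤ k := by exact_mod_cast hk
    have hlr : 0 < Real.logb 2 r := Real.logb_pos (by norm_num) (by linarith)
    have e2 : Real.logb 2 k ≤ (2 * j) * Real.logb 2 r := by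
      calc Real.logb 2 k ≤ Real.logb 2 ((r : ℝ) ^ (j + 1)) := by
            apply Real.logb_le_logb_of_le (by norm_num) (by linarith)
            have : k ≤ r ^ (j + 1) := hpow2.trans (Nat.pow_le_pow_left (by omega) _)
            exact_mod_cast this
        _ = (j + 1) * Real.logb 2 r := by
            rw [Real.logb_pow]
            push_cast
            ring
        _ ≤ _ := by
            apply mul_le_mul_of_nonneg_right _ hlr.le
            have : (1 : ℝ) ≤ j := by exact_mod_cast hj1
            linarith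
    have e3 : (r : ℝ) / 14 ≤ t := by
      have : r ≤ 4 * t + 10 := by omega
      have : (r : ℝ) ≤ 4 * t + 10 := by exact_mod_cast this
      linarith
    calc 1 / 28 * (r / Real.logb 2 r) * Real.logb 2 k
        ≤ 1 / 28 * (r / Real.logb 2 r) * ((2 * j) * Real.logb 2 r) := by
          apply mul_le_mul_of_nonneg_left e2
          positivity
      _ = (r / 14) * j := by
          field_simp
          ring
      _ ≤ t * j := mul_le_mul_of_nonneg_right e3 (by positivity)

/-- colourings with exponentially many vertices have large rank-width -/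
theorem linear {θ : ℝ} (hθ : 0 < θ) {k : ℕ} (hk : 2 ≤ k) (hkθ : (80 / θ) ^ 2 ≤ k)
    {V : Type} [Fintype V] (G : SimpleGraph V) (h : NoMono G k)
    (hV : (2 : ℝ) ^ (θ * k) ≤ Fintype.card V) {s : ℕ} (hs : (s : ℝ) ≤ θ / 40 * k) :
    ¬ RankWidthLE G s := by
  intro hG
  obtain ⟨r, hr⟩ : ∃ r, r = ⌊θ / 40 * k⌋₊ := ⟨_, rfl⟩
  have hk0 : (2 : ℝ) ≤ k := by exact_mod_cast hk
  have hsr : s ≤ r := by
    rw [hr]
    exact Nat.le_floor hs
  have hGr : RankWidthLE G r := Dec.mono (fun S hS => hS.trans hsr) hG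
  set w := Real.sqrt k with hw
  have hw2 : w * w = k := Real.mul_self_sqrt (by linarith)
  have hw1 : 1 < w := by
    rw [hw, Real.lt_sqrt (by norm_num)]
    linarith
  have hw80 : 80 / θ ≤ w := by
    rw [hw]
    exact Real.le_sqrt_of_sq_le hkθ
  have h1 : 2 * w ≤ θ / 40 * k := by
    rw [← hw2]
    have : 80 ≤ w * θ := by rwa [div_le_iff₀ hθ] at hw80
    nlinarith
  have h2 : θ / 40 * k < r + 1 := by
    rw [hr]
    exact Nat.lt_floor_add_one _
  have h3 : (r : ℝ) ≤ θ / 40 * k := by
    rw [hr]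
    exact Nat.floor_le (by positivity)
  have h4 : w ≤ r := by linarith
  have hr2 : 2 ≤ r := by
    have : (1 : ℝ) < r := by linarith
    have : 1 < r := by exact_mod_cast this
    omega
  have hup := upper_log G hr2 hGr hk h
  have hlow : θ * k ≤ Real.logb 2 (Fintype.card V) := by
    rw [Real.le_logb_iff_rpow_le (by norm_num)]
    · exact hV
    · exact lt_of_lt_of_le (by positivity) hV
  have hlogw : Real.logb 2 k = 2 * Real.logb 2 w := by
    rw [← hw2, ← pow_two, Real.logb_pow]
    push_cast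
    ring
  have hlw : 0 < Real.logb 2 w := Real.logb_pos (by norm_num) hw1
  have h5 : Real.logb 2 w ≤ Real.logb 2 r := Real.logb_le_logb_of_le (by norm_num) (by linarith) h4
  have hlr : 0 < Real.logb 2 r := by linarith
  have h6 : 10 * (r / Real.logb 2 r) * Real.logb 2 k ≤ 20 * r := by
    rw [hlogw]
    have : 10 * ((r : ℝ) / Real.logb 2 r) * (2 * Real.logb 2 w) =
        20 * r * (Real.logb 2 w / Real.logb 2 r) := by
      field_simp
      ring
    rw [this]
    have h7 : Real.logb 2 w / Real.logb 2 r ≤ 1 := by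
      rw [div_le_one hlr]
      exact h5
    have : (0 : ℝ) ≤ 20 * r := by positivity
    nlinarith
  have : 0 < θ * k := by positivity
  linarith

/-- **Theorem.** Call a 2-colouring of the edges of a complete graph, with colour classes a graph
`G` and its complement, of rank-width at most `r` if `G` is.

1. A colouring of rank-width at most `r ≥ 2` without monochromatic `K_k` (`k ≥ 2`) has at most
`k ^ (10 r / log_2 r)` vertices.
2. The order `r / log r` of the exponent is right: for `14 ≤ r ≤ k` there is a colouring of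
rank-width at most `r` without monochromatic `K_k` with at least `k ^ (r / (28 log_2 r))` vertices.
3. Colourings without monochromatic `K_k` with at least `2 ^ (θ k)` vertices, `k ≥ (80/θ)^2`, have
rank-width more than `(θ/40) k`.
4. For all `k ≥ 3` there is a colouring without monochromatic `K_k`, with `2 ^ ⌊(k-3)/2⌋`
vertices, of rank-width at most `2 k + 1`.
5. More precisely than in 1, if `3 * 2 ^ (r + D) ≤ D ^ D`, `D ≥ 1`, then graphs of rank-width at
most `r` without clique with more than `a` and independent set with more than `b` vertices have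
at most `(a b) ^ D` vertices. -/
theorem result :
    (∀ (V : Type) [Fintype V] (G : SimpleGraph V) (r k : ℕ), 2 ≤ r → 2 ≤ k →
      RankWidthLE G r → NoMono G k →
      Real.logb 2 (Fintype.card V) ≤ 10 * (r / Real.logb 2 r) * Real.logb 2 k) ∧
    (∀ r k : ℕ, 14 ≤ r → r ≤ k → ∃ (V : Type) (_ : Fintype V) (G : SimpleGraph V),
      RankWidthLE G r ∧ NoMono G k ∧
      1 / 28 * (r / Real.logb 2 r) * Real.logb 2 k ≤ Real.logb 2 (Fintype.card V)) ∧
    (∀ θ : ℝ, 0 < θ → ∀ k : ℕ, 2 ≤ k → (80 / θ) ^ 2 ≤ k → ∀ (V : Type) [Fintype V]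
      (G : SimpleGraph V), NoMono G k → (2 : ℝ) ^ (θ * k) ≤ Fintype.card V →
      ∀ s : ℕ, (s : ℝ) ≤ θ / 40 * k → ¬ RankWidthLE G s) ∧
    (∀ k : ℕ, 3 ≤ k → ∃ G : SimpleGraph (Fin (2 ^ ((k - 3) / 2))),
      NoMono G k ∧ RankWidthLE G (2 * k + 1)) ∧
    (∀ (V : Type) [Fintype V] (G : SimpleGraph V) (r D a b : ℕ), 1 ≤ D →
      3 * 2 ^ (r + D) ≤ D ^ D → RankWidthLE G r → G.CliqueFree (a + 1) → Gᶜ.CliqueFree (b + 1) →
      Fintype.card V ≤ (a * b) ^ D) := by
  classical
  refine ⟨fun V _ G r k hr hk hG h => upper_log G hr hG hk h, lower_log,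
    fun θ hθ k hk hkθ V _ G h hV s hs => linear hθ hk hkθ G h hV hs, ?_, ?_⟩
  · intro k hk
    obtain ⟨G, h1, h2, h3⟩ := base k k ((k - 3) / 2) hk
      (by
        obtain ⟨t, ht⟩ : ∃ t, t = (k - 3) / 2 := ⟨_, rfl⟩
        rw [← ht]
        have : 2 * t + 3 ≤ k := by omega
        nlinarith)
      (by
        obtain ⟨t, ht⟩ : ∃ t, t = (k - 3) / 2 := ⟨_, rfl⟩
        rw [← ht]
        have h3 : 2 * t + 3 ≤ k := by omega
        obtain ⟨s, rfl⟩ : ∃ s, k = s + 3 := ⟨k - 3, by omega⟩
        have e : (s + 3 - 1) * (s + 3 - 2) = (s + 2) * (s + 1) := by congr 1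
        rw [e]
        nlinarith)
    refine ⟨G, ⟨?_, ?_⟩, ?_⟩
    · rintro S ⟨hS, hc⟩
      have := h1 S hS
      omega
    · rintro S ⟨hS, hc⟩
      have := h2 S hS
      omega
    · refine Dec.mono (fun S hS => Fac.cutRank_le hS) (Dec.of_all h3 ?_)
      exact ⟨⟨0, by positivity⟩, mem_univ _⟩
  · intro V _ G r D a b hD1 hD hG ha hb
    have h3 := upper G hG hD1 hD (univ : Finset V).card univ rfl
    have key : ∀ (H : SimpleGraph V) (c : ℕ), H.CliqueFree (c + 1) → om H univ ≤ c := by
      intro H c hH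
      by_contra hcon
      push Not at hcon
      obtain ⟨K, -, hK, he⟩ := om_mem H univ
      obtain ⟨S, hS, hc⟩ := exists_subset_card_eq (show c + 1 ≤ K.card by omega)
      exact hH S ⟨hK.subset (coe_subset.2 hS), hc⟩
    calc Fintype.card V ≤ (om G univ * om Gᶜ univ) ^ D := by
          rw [← card_univ]
          convert h3
      _ ≤ (a * b) ^ D := Nat.pow_le_pow_left (Nat.mul_le_mul (key G a ha) (key Gᶜ b hb)) _

end Pool.Agent.Results.MP_28724c_co.RankWidth
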