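import Pool.Agent.Y422.TW.Final

/-!
# Diagonal Ramsey numbers of colourings of bounded twin-width: a staircase

A two-colouring of the edges of the complete graph on the finite set `V` is a graph `G` (first
colour) together with its complement `Gᶜ` (second colour); it has no monochromatic `K_k` if `G` and
`Gᶜ` are free of cliques with `k` vertices. `TwinWidthLE G t` says that the twin-width of `G`
(equivalently of `Gᶜ`, that is, of the colouring) is at most `t`: the partition of `V` into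
singletons can be turned into the partition with one part by merging two parts at a time, so that in
every partition after the first one every part is homogeneous to all other parts up to `t`.

The theorems `upper`, `lower`, `main` are those of `Pool/Agent/Y422/TW` (starting repository, not
handed in before).
-/

set_option autoImplicit false

namespace Pool.Agent.Results.MP_28724c_co.TwinWidthStaircase

open Pool.Agent.Y422.TW Real

/-- The colouring with colour classes `G` and `Gᶜ` has no monochromatic `K_k`. -/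
def NoMono {V : Type} (G : SimpleGraph V) (k : ℕ) : Prop :=
  G.CliqueFree k ∧ Gᶜ.CliqueFree k

/-- (1) For every `j ≥ 1` there is `C` such that every colouring of twin-width at most `t` without
monochromatic `K_k` has at most `(2 (t + 1)) ^ (j - 1) * exp (C * k ^ (1 / j))` vertices.

(2) The staircase. Let `τ > 0` and `j = ⌈1 / τ⌉`. The largest number `n` of vertices of a colouring
without monochromatic `K_k`, `k ≥ 3`, and of twin-width at most `n ^ τ`, satisfies
`c k ^ (1 / j) ≤ log n ≤ C k ^ (1 / j)`, with `c, C > 0` depending on `τ` only.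

(3) In particular, for every `τ < 1` the growth rate `log n / k` of these colourings is `0`, and it is
at most `C / √k`.

(4) Every colouring without monochromatic `K_k` on `n` vertices has twin-width `t` with
`2 (t + 1) ≥ n exp (- C √k)`. So, if `n ≥ exp (θ k)`, the twin-width is at least
`n ^ (1 - C / (θ √k)) / 2 - 1`.

(5) Consequently a lower bound `R(k,k) > exp (θ k)` cannot be proved with colourings whose twin-width
is at most `n ^ (1 - δ)`, for any fixed `θ, δ > 0`, if `k` is large. -/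
theorem result :
    (∀ j : ℕ, 1 ≤ j → ∃ C : ℝ, 0 < C ∧
      ∀ (V : Type) [Fintype V] (G : SimpleGraph V) (t k : ℕ), TwinWidthLE G t → NoMono G k →
        (Fintype.card V : ℝ) ≤ (2 * ((t : ℝ) + 1)) ^ (j - 1) * exp (C * (k : ℝ) ^ ((1 : ℝ) / j))) ∧
    (∀ τ : ℝ, 0 < τ → ∃ c C : ℝ, 0 < c ∧ 0 < C ∧ ∀ k : ℕ, 3 ≤ k →
      (∀ (V : Type) [Fintype V] (G : SimpleGraph V) (t : ℕ), TwinWidthLE G t →
        (t : ℝ) ≤ (Fintype.card V : ℝ) ^ τ → NoMono G k →
        log (Fintype.card V) ≤ C * (k : ℝ) ^ ((1 : ℝ) / (⌈1 / τ⌉₊ : ℝ))) ∧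
      ∃ (V : Type) (_ : Fintype V) (G : SimpleGraph V) (t : ℕ), TwinWidthLE G t ∧
        (t : ℝ) ≤ (Fintype.card V : ℝ) ^ τ ∧ NoMono G k ∧
        c * (k : ℝ) ^ ((1 : ℝ) / (⌈1 / τ⌉₊ : ℝ)) ≤ log (Fintype.card V)) ∧
    (∀ τ : ℝ, 0 < τ → τ < 1 → ∃ C : ℝ, 0 < C ∧ ∀ k : ℕ, 3 ≤ k →
      ∀ (V : Type) [Fintype V] (G : SimpleGraph V) (t : ℕ), TwinWidthLE G t →
        (t : ℝ) ≤ (Fintype.card V : ℝ) ^ τ → NoMono G k →
        log (Fintype.card V) / k ≤ C / sqrt k) ∧
    (∃ C : ℝ, 0 < C ∧ ∀ (V : Type) [Fintype V] (G : SimpleGraph V) (t k : ℕ),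
      TwinWidthLE G t → NoMono G k →
        (Fintype.card V : ℝ) * exp (-(C * sqrt k)) ≤ 2 * ((t : ℝ) + 1)) ∧
    (∀ θ δ : ℝ, 0 < θ → 0 < δ → δ < 1 → ∃ K : ℕ, ∀ k : ℕ, K ≤ k →
      ∀ (V : Type) [Fintype V] (G : SimpleGraph V) (t : ℕ), TwinWidthLE G t →
        (t : ℝ) ≤ (Fintype.card V : ℝ) ^ (1 - δ) → NoMono G k →
        (Fintype.card V : ℝ) < exp (θ * k)) := by
  have h3 : ∀ τ : ℝ, 0 < τ → τ < 1 → ∃ C : ℝ, 0 < C ∧ ∀ k : ℕ, 3 ≤ k →
      ∀ (V : Type) [Fintype V] (G : SimpleGraph V) (t : ℕ), TwinWidthLE G t →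
        (t : ℝ) ≤ (Fintype.card V : ℝ) ^ τ → NoMono G k →
        log (Fintype.card V) / k ≤ C / sqrt k := by
    intro τ h0 h1
    obtain ⟨c, C, -, hC, h⟩ := main τ h0
    refine ⟨C, hC, fun k hk V _ G t g1 g2 g3 => ?_⟩
    have hkpos : (0 : ℝ) < k := by exact_mod_cast (by omega : 0 < k)
    have hk1 : (1 : ℝ) ≤ k := by exact_mod_cast (by omega : 1 ≤ k)
    have h2 := (h k hk).2.1 V G t g1 g2 g3.1 g3.2
    have hj : (2 : ℝ) ≤ (⌈1 / τ⌉₊ : ℝ) := by
      have : 1 < ⌈1 / τ⌉₊ := by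
        rw [Nat.lt_ceil, Nat.cast_one]
        exact (one_lt_div h0).2 h1
      exact_mod_cast this
    have h4 : (k : ℝ) ^ ((1 : ℝ) / (⌈1 / τ⌉₊ : ℝ)) ≤ sqrt k := by
      rw [sqrt_eq_rpow]
      exact rpow_le_rpow_of_exponent_le hk1 (one_div_le_one_div_of_le (by norm_num) hj)
    have hs : 0 < sqrt (k : ℝ) := sqrt_pos.2 hkpos
    rw [div_le_div_iff₀ hkpos hs]
    have h5 : log (Fintype.card V : ℝ) ≤ C * sqrt k := h2.trans (mul_le_mul_of_nonneg_left h4 hC.le)
    calc log (Fintype.card V : ℝ) * sqrt k ≤ C * sqrt k * sqrt k :=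
          mul_le_mul_of_nonneg_right h5 hs.le
      _ = C * k := by rw [mul_assoc, mul_self_sqrt hkpos.le]
  refine ⟨?_, ?_, h3, ?_, ?_⟩
  · intro j hj
    obtain ⟨C, hC, h⟩ := upper j hj
    exact ⟨C, hC, fun V _ G t k g1 g2 => h V G t k g1 g2.1 g2.2⟩
  · intro τ hτ
    obtain ⟨c, C, hc, hC, h⟩ := main τ hτ
    refine ⟨c, C, hc, hC, fun k hk => ⟨fun V _ G t g1 g2 g3 => (h k hk).2.1 V G t g1 g2 g3.1 g3.2,
      ?_⟩⟩
    obtain ⟨V, hV, G, t, g1, g2, g3, g4, g5⟩ := (h k hk).2.2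
    exact ⟨V, hV, G, t, g1, g2, ⟨g3, g4⟩, g5⟩
  · obtain ⟨C, hC, h⟩ := upper 2 (by norm_num)
    refine ⟨C, hC, fun V _ G t k g1 g2 => ?_⟩
    have h2 := h V G t k g1 g2.1 g2.2
    rw [show (2 : ℕ) - 1 = 1 from rfl, pow_one, Nat.cast_ofNat, ← sqrt_eq_rpow] at h2
    have h4 := mul_le_mul_of_nonneg_right h2 (exp_pos (-(C * sqrt (k : ℝ)))).le
    rwa [mul_assoc, ← exp_add, add_neg_cancel, exp_zero, mul_one] at h4
  · intro θ δ hθ hδ hδ1
    obtain ⟨C, hC, h⟩ := h3 (1 - δ) (by linarith) (by linarith)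
    obtain ⟨K, hK⟩ := exists_nat_gt ((C / θ) ^ 2)
    refine ⟨max K 3, fun k hk V _ G t g1 g2 g3 => ?_⟩
    have hk3 : 3 ≤ k := le_trans (le_max_right _ _) hk
    have hkK : K ≤ k := le_trans (le_max_left _ _) hk
    have hkpos : (0 : ℝ) < k := by exact_mod_cast (by omega : 0 < k)
    have hs : 0 < sqrt (k : ℝ) := sqrt_pos.2 hkpos
    have h4 := h k hk3 V G t g1 g2 g3
    have h5 : C / sqrt k < θ := by
      rw [div_lt_iff₀ hs, mul_comm, ← div_lt_iff₀ hθ]
      apply lt_sqrt_of_sq_lt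
      refine hK.trans_le ?_
      exact_mod_cast hkK
    have h6 : log (Fintype.card V : ℝ) < θ * k := (div_lt_iff₀ hkpos).1 (h4.trans_lt h5)
    rcases Nat.eq_zero_or_pos (Fintype.card V) with hV | hV
    · rw [hV, Nat.cast_zero]
      exact exp_pos _
    · exact (log_lt_iff_lt_exp (by exact_mod_cast hV)).1 h6

end Pool.Agent.Results.MP_28724c_co.TwinWidthStaircase
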